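import Mathlib

set_option autoImplicit false

namespace Pool.Agent.P.MP_90339f_al

/-- Heisenberg-type group `(C × C) ⋊ ℤ`, the generator of `ℤ` acting by a Jordan block. -/
@[ext] structure Heis (C : Type) where
  c : C
  z : C
  n : ℤ

variable {C : Type} [CommGroup C]

instance : Mul (Heis C) := ⟨fun g h => ⟨g.c * h.c * h.z ^ (-g.n), g.z * h.z, g.n + h.n⟩⟩
instance : One (Heis C) := ⟨⟨1, 1, 0⟩⟩
instance : Inv (Heis C) := ⟨fun g => ⟨g.c⁻¹ * g.z ^ (-g.n), g.z⁻¹, -g.n⟩⟩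

@[simp] theorem mul_c (g h : Heis C) : (g * h).c = g.c * h.c * h.z ^ (-g.n) := rfl
@[simp] theorem mul_z (g h : Heis C) : (g * h).z = g.z * h.z := rfl
@[simp] theorem mul_n (g h : Heis C) : (g * h).n = g.n + h.n := rfl
@[simp] theorem one_c : (1 : Heis C).c = 1 := rfl
@[simp] theorem one_z : (1 : Heis C).z = 1 := rfl
@[simp] theorem one_n : (1 : Heis C).n = 0 := rfl
@[simp] theorem inv_c (g : Heis C) : (g⁻¹).c = g.c⁻¹ * g.z ^ (-g.n) := rfl
@[simp] theorem inv_z (g : Heis C) : (g⁻¹).z = g.z⁻¹ := rfl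
@[simp] theorem inv_n (g : Heis C) : (g⁻¹).n = -g.n := rfl

instance : Group (Heis C) := Group.ofLeftAxioms
  (fun a b c => by
    ext
    · simp only [mul_c, mul_z, mul_n, mul_zpow, neg_add, zpow_add]
      ac_rfl
    · simp [mul_assoc]
    · simp [add_assoc])
  (fun a => by ext <;> simp)
  (fun a => by
    ext
    · simp only [mul_c, inv_c, inv_n, neg_neg, zpow_neg, one_c]
      calc a.c⁻¹ * (a.z ^ a.n)⁻¹ * a.c * a.z ^ a.n
          = (a.c⁻¹ * a.c) * ((a.z ^ a.n)⁻¹ * a.z ^ a.n) := by ac_rfl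
        _ = 1 := by simp
    · simp
    · simp)

/-- The projection onto `ℤ`. -/
def piN : Heis C →* Multiplicative ℤ :=
  MonoidHom.mk' (fun g => Multiplicative.ofAdd g.n) (fun a b => by simp [ofAdd_add])

/-- The projection onto the second coordinate. -/
def piZ : Heis C →* C := MonoidHom.mk' (fun g => g.z) (fun _ _ => rfl)

/-- The inclusion of the base group. -/
def inl : C × C →* Heis C :=
  MonoidHom.mk' (fun p => ⟨p.1, p.2, 0⟩) (fun a b => by ext <;> simp)

instance : Group.IsSolvable (Heis C) := by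
  refine Group.isSolvable_of_ker_le_range (inl (C := C)) piN fun g hg => ?_
  have : g.n = 0 := by simpa [piN] using hg
  exact ⟨(g.c, g.z), by ext <;> simp [inl, this]⟩

instance [Countable C] : Countable (Heis C) := by
  have : Function.Injective (fun g : Heis C => (g.c, g.z, g.n)) := by
    intro a b h
    simp only [Prod.mk.injEq] at h
    exact Heis.ext h.1 h.2.1 h.2.2
  exact this.countable

theorem gen_step {G Q : Type*} [Group G] [Group Q] (H N : Subgroup G) (φ : H →* Q)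
    (hc : IsCyclic φ.range) (hN : ∀ h : H, φ h = 1 → (h : G) ∈ N) {r : ℕ}
    (hgen : ∃ s : Finset G, s.card ≤ r ∧ Subgroup.closure (s : Set G) = H ⊓ N) :
    ∃ s : Finset G, s.card ≤ r + 1 ∧ Subgroup.closure (s : Set G) = H := by
  classical
  obtain ⟨s, hs, hcl⟩ := hgen
  obtain ⟨⟨_, h₀, rfl⟩, hg⟩ := hc.exists_generator
  refine ⟨insert (h₀ : G) s, (Finset.card_insert_le _ _).trans (by omega), le_antisymm ?_ ?_⟩
  · rw [Subgroup.closure_le]
    intro x hx
    rcases Finset.mem_insert.mp (Finset.mem_coe.mp hx) with rfl | hx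
    · exact h₀.2
    · have : x ∈ H ⊓ N := hcl ▸ Subgroup.subset_closure (Finset.mem_coe.mpr hx)
      exact this.1
  · intro x hx
    obtain ⟨k, hk⟩ := hg ⟨φ ⟨x, hx⟩, ⟨x, hx⟩, rfl⟩
    have hk' : φ h₀ ^ k = φ ⟨x, hx⟩ := by
      simpa using congrArg Subtype.val hk
    have h1 : φ ((h₀ ^ k)⁻¹ * ⟨x, hx⟩) = 1 := by simp [hk']
    have h2 : (((h₀ ^ k)⁻¹ * ⟨x, hx⟩ : H) : G) ∈ H ⊓ N := ⟨SetLike.coe_mem _, hN _ h1⟩
    rw [← hcl] at h2
    have h3 : (((h₀ ^ k)⁻¹ * ⟨x, hx⟩ : H) : G) ∈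
        Subgroup.closure ((insert (h₀ : G) s : Finset G) : Set G) :=
      Subgroup.closure_mono (by simp) h2
    have h4 : (h₀ : G) ^ k ∈ Subgroup.closure ((insert (h₀ : G) s : Finset G) : Set G) :=
      Subgroup.zpow_mem _ (Subgroup.subset_closure (by simp)) k
    simpa using Subgroup.mul_mem _ h4 h3

/-- The elements with both base coordinates in `D`. -/
def sub (D : Subgroup C) : Subgroup (Heis C) where
  carrier := {g | g.c ∈ D ∧ g.z ∈ D}
  one_mem' := ⟨D.one_mem, D.one_mem⟩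
  mul_mem' := fun ha hb =>
    ⟨D.mul_mem (D.mul_mem ha.1 hb.1) (D.zpow_mem hb.2 _), D.mul_mem ha.2 hb.2⟩
  inv_mem' := fun ha => ⟨D.mul_mem (D.inv_mem ha.1) (D.zpow_mem ha.2 _), D.inv_mem ha.2⟩

theorem gen_three (D : Subgroup C) [IsCyclic D] (H : Subgroup (Heis C)) (hH : H ≤ sub D) :
    ∃ s : Finset (Heis C), s.card ≤ 3 ∧ Subgroup.closure (s : Set (Heis C)) = H := by
  refine gen_step H piN.ker (piN.comp H.subtype) inferInstance (fun h hh => hh) ?_
  refine gen_step (H ⊓ piN.ker) piZ.ker (piZ.comp (Subgroup.subtype _))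
    (Subgroup.isCyclic_of_le (H' := D) ?_) (fun h hh => hh) ?_
  · rintro _ ⟨h, rfl⟩
    exact (hH h.2.1).2
  have hn : ∀ h : ↥(H ⊓ piN.ker ⊓ piZ.ker), (h : Heis C).n = 0 := fun h => by
    simpa [piN] using h.2.1.2
  refine gen_step (H ⊓ piN.ker ⊓ piZ.ker) ⊥
    (MonoidHom.mk' (fun h => (h : Heis C).c) (fun a b => by simp [hn a]))
    (Subgroup.isCyclic_of_le (H' := D) ?_) (fun h hh => ?_) ⟨∅, le_rfl, by simp⟩
  · rintro _ ⟨h, rfl⟩
    exact (hH h.2.1.1).1
  · rw [Subgroup.mem_bot]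
    ext
    · simpa using hh
    · simpa [piZ] using h.2.2
    · simpa using hn h

theorem finite_rank (hC : ∀ t : Finset C, ∃ D : Subgroup C, IsCyclic D ∧ ∀ x ∈ t, x ∈ D)
    (H : Subgroup (Heis C)) (hH : H.FG) :
    ∃ s : Finset (Heis C), s.card ≤ 3 ∧ Subgroup.closure (s : Set (Heis C)) = H := by
  classical
  obtain ⟨t, ht⟩ := hH
  obtain ⟨D, hD, htD⟩ := hC (t.image Heis.c ∪ t.image Heis.z)
  refine gen_three D H ?_
  rw [← ht, Subgroup.closure_le]
  intro g hg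
  exact ⟨htD _ (Finset.mem_union_left _ (Finset.mem_image_of_mem _ hg)),
    htD _ (Finset.mem_union_right _ (Finset.mem_image_of_mem _ hg))⟩

end Pool.Agent.P.MP_90339f_al
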