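import Mathlib

set_option autoImplicit false

namespace Pool.Agent.P.MP_90339f_al

variable {R E : Type*} [Ring R] [AddCommGroup E] [Module R E]

/-- The submodules of `U` form a chain. -/
def Chain (U : Submodule R E) : Prop :=
  ∀ V W : Submodule R E, V ≤ U → W ≤ U → V ≤ W ∨ W ≤ V

/-- The submodules of `U` form a well-ordered chain. -/
def Good (U : Submodule R E) : Prop :=
  Chain U ∧ Acc (· < ·) U

theorem acc_of_le {U V : Submodule R E} (hU : Acc (· < ·) U) (h : V ≤ U) : Acc (· < ·) V := by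
  rcases h.eq_or_lt with rfl | h
  · exact hU
  · exact hU.inv h

theorem good_bot : Good (⊥ : Submodule R E) := by
  refine ⟨fun V W hV _ => Or.inl (hV.trans bot_le), Acc.intro _ fun V hV => ?_⟩
  exact absurd hV not_lt_bot

theorem good_sSup {c : Set (Submodule R E)} (hc : ∀ U ∈ c, Good U) (hch : IsChain (· ≤ ·) c)
    (hne : c.Nonempty) : Good (sSup c) := by
  have hdir : DirectedOn (· ≤ ·) c := hch.directedOn
  have hchain : Chain (sSup c) := by
    intro V W hV hW
    by_contra hcon
    push Not at hcon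
    obtain ⟨x, hxV, hxW⟩ := SetLike.not_le_iff_exists.mp hcon.1
    obtain ⟨y, hyW, hyV⟩ := SetLike.not_le_iff_exists.mp hcon.2
    obtain ⟨U₁, hU₁, hx⟩ := (Submodule.mem_sSup_of_directed hne hdir).mp (hV hxV)
    obtain ⟨U₂, hU₂, hy⟩ := (Submodule.mem_sSup_of_directed hne hdir).mp (hW hyW)
    obtain ⟨U, hU, h1, h2⟩ := hdir U₁ hU₁ U₂ hU₂
    have hxU : Submodule.span R {x} ≤ U := (Submodule.span_singleton_le_iff_mem _ _).mpr (h1 hx)
    have hyU : Submodule.span R {y} ≤ U := (Submodule.span_singleton_le_iff_mem _ _).mpr (h2 hy)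
    rcases (hc U hU).1 _ _ hxU hyU with h | h
    · exact hxW (((Submodule.span_singleton_le_iff_mem _ _).mpr hyW)
        (h (Submodule.mem_span_singleton_self x)))
    · exact hyV (((Submodule.span_singleton_le_iff_mem _ _).mpr hxV)
        (h (Submodule.mem_span_singleton_self y)))
  refine ⟨hchain, Acc.intro _ fun V hV => ?_⟩
  obtain ⟨x, hx, hxV⟩ := SetLike.exists_of_lt hV
  obtain ⟨U, hU, hxU⟩ := (Submodule.mem_sSup_of_directed hne hdir).mp hx
  rcases hchain V U hV.le (le_sSup hU) with h | h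
  · exact acc_of_le (hc U hU).2 h
  · exact absurd (h hxU) hxV

theorem good_ext {U W : Submodule R E} (hU : Good U) (hUW : U ≤ W)
    (h : ∀ V ≤ W, V ≤ U ∨ V = W) : Good W := by
  refine ⟨fun V V' hV hV' => ?_, Acc.intro _ fun V hV => ?_⟩
  · rcases h V hV with h1 | rfl
    · rcases h V' hV' with h2 | rfl
      · exact hU.1 _ _ h1 h2
      · exact Or.inl hV
    · exact Or.inr hV'
  · rcases h V hV.le with h1 | rfl
    · exact acc_of_le hU.2 h1
    · exact absurd hV (lt_irrefl _)

theorem isArtinian_of_acc {U : Submodule R E} (hU : Acc (· < ·) U) : IsArtinian R U := by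
  refine ⟨⟨fun V => ?_⟩⟩
  have h1 : Acc (· < ·) (V.map U.subtype) := acc_of_le hU (Submodule.map_subtype_le U V)
  have h2 : Acc (InvImage (· < ·) (fun V : Submodule R U => V.map U.subtype)) V :=
    InvImage.accessible _ h1
  refine Subrelation.accessible (fun {a b} hab => ?_) h2
  exact (Submodule.MapSubtype.orderEmbedding U).strictMono hab

theorem exists_uncountable
    (hext : ∀ U : Submodule R E, Chain U → Countable U →
      ∃ W, U < W ∧ ∀ V ≤ W, V ≤ U ∨ V = W) :
    ∃ U : Submodule R E, Good U ∧ ¬ Countable U := by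
  obtain ⟨m, -, hm⟩ := zorn_le_nonempty₀ {U : Submodule R E | Good U}
    (fun c hc hch y hy => ⟨sSup c, good_sSup (fun U hU => hc hU) hch ⟨y, hy⟩,
      fun z hz => le_sSup hz⟩) ⊥ good_bot
  refine ⟨m, hm.1, fun hcount => ?_⟩
  obtain ⟨W, hW, h⟩ := hext m hm.1.1 hcount
  exact absurd (hm.2 (good_ext hm.1 hW.le h) hW.le) hW.not_ge

end Pool.Agent.P.MP_90339f_al
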