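import Mathlib
import Pool.Agent.P.MP_90339f_al.Group
import Pool.Agent.P.MP_90339f_al.Zorn

set_option autoImplicit false

namespace Pool.Agent.P.MP_90339f_al

noncomputable section

instance : Fact (Nat.Prime 3) := ⟨Nat.prime_three⟩

/-- The algebraic closure of the field with three elements. -/
abbrev L : Type := AlgebraicClosure (ZMod 3)

/-- The roots of unity of 2-power order. -/
def Cg : Subgroup Lˣ where
  carrier := {u | ∃ m : ℕ, u ^ (2 ^ m) = 1}
  one_mem' := ⟨0, by simp⟩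
  mul_mem' := by
    rintro a b ⟨m, hm⟩ ⟨k, hk⟩
    refine ⟨m + k, ?_⟩
    rw [mul_pow, pow_add, pow_mul, hm, mul_comm (2 ^ m), pow_mul, hk]
    simp
  inv_mem' := by
    rintro a ⟨m, hm⟩
    exact ⟨m, by rw [inv_pow, hm, inv_one]⟩

abbrev G : Type := Heis Cg
abbrev R : Type := MonoidAlgebra ℤ G

def act (g : G) (f : ℤ → L) : ℤ → L :=
  fun j => ((g.c : Lˣ) : L) * ((g.z : Lˣ) : L) ^ j * f (j - g.n)

def rho : Representation ℤ G (ℤ → L) where
  toFun g :=
    { toFun := act g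
      map_add' := fun f h => by ext j; simp [act, mul_add]
      map_smul' := fun k f => by ext j; simp only [act, Pi.smul_apply, zsmul_eq_mul, RingHom.id_apply]; ring }
  map_one' := by ext f j; simp [act]
  map_mul' g h := by
    refine LinearMap.ext fun f => funext fun j => ?_
    have hz : ((h.z : Lˣ) : L) ≠ 0 := Units.ne_zero _
    simp only [act, LinearMap.coe_mk, AddHom.coe_mk, Module.End.mul_apply, mul_c, mul_z, mul_n,
      Subgroup.coe_mul, Units.val_mul, SubgroupClass.coe_zpow, Units.val_zpow_eq_zpow_val,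
      mul_zpow, sub_sub, zpow_sub₀ hz, zpow_neg, Subgroup.coe_inv, Units.val_inv_eq_inv_val]
    field_simp

instance modE : Module R (ℤ → L) := Module.compHom _ rho.asAlgebraHom.toRingHom

theorem smul_def (r : R) (f : ℤ → L) : r • f = rho.asAlgebraHom r f := rfl

theorem of_smul (g : G) (f : ℤ → L) : (MonoidAlgebra.of ℤ G g) • f = act g f := by
  rw [smul_def, Representation.asAlgebraHom_of]; rfl

theorem zsmul_smul (k : ℤ) (r : R) (f : ℤ → L) : (k • r) • f = k • (r • f) := by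
  rw [smul_def, smul_def, map_smul]; rfl

theorem act_mem {V : Submodule R (ℤ → L)} (g : G) {f : ℤ → L} (hf : f ∈ V) : act g f ∈ V :=
  of_smul g f ▸ V.smul_mem _ hf

/-- The subfield generated by the roots of unity of 2-power order. -/
def A : Subalgebra (ZMod 3) L := Algebra.adjoin (ZMod 3) (Set.range fun c : Cg => ((c : Lˣ) : L))

theorem C_mem_A (c : Cg) : ((c : Lˣ) : L) ∈ A := Algebra.subset_adjoin ⟨c, rfl⟩

theorem inv_mem_A {a : L} (ha : a ∈ A) : a⁻¹ ∈ A :=
  A.inv_mem_of_algebraic (x := ⟨a, ha⟩) (Algebra.IsAlgebraic.isAlgebraic _)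

theorem scalar_mem {V : Submodule R (ℤ → L)} {a : L} (ha : a ∈ A) :
    ∀ {f : ℤ → L}, f ∈ V → a • f ∈ V := by
  induction ha using Algebra.adjoin_induction with
  | mem x hx =>
    obtain ⟨c, rfl⟩ := hx
    intro f hf
    have : ((c : Lˣ) : L) • f = act ⟨c, 1, 0⟩ f := by ext j; simp [act]
    exact this ▸ act_mem _ hf
  | algebraMap r =>
    intro f hf
    have : algebraMap (ZMod 3) L r • f = r.val • f := by
      conv_lhs => rw [← ZMod.natCast_zmod_val r]
      rw [map_natCast, Nat.cast_smul_eq_nsmul]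
    exact this ▸ V.toAddSubmonoid.nsmul_mem hf _
  | add x y _ _ hx hy =>
    intro f hf
    rw [add_smul]
    exact V.add_mem (hx hf) (hy hf)
  | mul x y _ _ hx hy =>
    intro f hf
    rw [mul_smul]
    exact hx (hy hf)

/-- Translation. -/
def sh (n : ℤ) (f : ℤ → L) : ℤ → L := fun j => f (j - n)

theorem sh_mem {V : Submodule R (ℤ → L)} (n : ℤ) {f : ℤ → L} (hf : f ∈ V) : sh n f ∈ V := by
  have : sh n f = act ⟨1, 1, n⟩ f := by ext j; simp [act, sh]
  exact this ▸ act_mem _ hf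

/-- Indicator function of a residue class modulo `2 ^ m`. -/
def ind (m : ℕ) (a : ℤ) : ℤ → L := fun j => if j ≡ a [ZMOD 2 ^ m] then 1 else 0

theorem two_ne : (2 : L) ≠ 0 := by
  have h : NeZero ((2 : ℕ) : ZMod 3) := ⟨by decide⟩
  have : NeZero ((2 : ℕ) : L) := h.of_injective (algebraMap (ZMod 3) L).injective
  exact_mod_cast this.out

instance : NeZero ((2 : ℕ) : L) := ⟨by exact_mod_cast two_ne⟩

theorem ind_mem {V : Submodule R (ℤ → L)} (m : ℕ) (a : ℤ) {f : ℤ → L} (hf : f ∈ V) :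
    ind m a * f ∈ V := by
  obtain ⟨ζ, hζ⟩ := HasEnoughRootsOfUnity.exists_primitiveRoot L (2 ^ m)
  have hpos : 0 < 2 ^ m := by positivity
  have hu : IsUnit ζ := hζ.isUnit hpos.ne'
  have hζ0 : ζ ≠ 0 := hu.ne_zero
  let c : Cg := ⟨hu.unit, m, by ext; simp [hζ.pow_eq_one]⟩
  have hc : ((c : Lˣ) : L) = ζ := rfl
  have hsum : ∑ k ∈ Finset.range (2 ^ m), act ⟨(c ^ (-a)) ^ k, c ^ k, 0⟩ f ∈ V :=
    V.sum_mem fun k _ => act_mem _ hf
  have h2 : ((2 : L) ^ m)⁻¹ ∈ A := inv_mem_A (A.pow_mem (by exact_mod_cast A.natCast_mem 2) _)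
  have key : ind m a * f =
      ((2 : L) ^ m)⁻¹ • ∑ k ∈ Finset.range (2 ^ m), act ⟨(c ^ (-a)) ^ k, c ^ k, 0⟩ f := by
    ext j
    have h1 : ∀ k : ℕ, act ⟨(c ^ (-a)) ^ k, c ^ k, 0⟩ f j = (ζ ^ (j - a)) ^ k * f j := by
      intro k
      simp only [act, SubgroupClass.coe_pow, SubgroupClass.coe_zpow, Units.val_pow_eq_pow_val,
        Units.val_zpow_eq_zpow_val, hc, sub_zero]
      rw [← zpow_natCast ζ k, ← zpow_mul, mul_comm (k : ℤ) j, zpow_mul, zpow_natCast, ← mul_pow,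
        ← zpow_add₀ hζ0, neg_add_eq_sub]
    simp only [Pi.mul_apply, Pi.smul_apply, Finset.sum_apply, h1, ← Finset.sum_mul, smul_eq_mul,
      ind]
    have hiff : ζ ^ (j - a) = 1 ↔ j ≡ a [ZMOD 2 ^ m] := by
      rw [hζ.zpow_eq_one_iff_dvd, Int.modEq_comm, Int.modEq_iff_dvd]
      push_cast
      rfl
    split_ifs with h
    · rw [hiff.mpr h]
      have : (2 : L) ^ m ≠ 0 := pow_ne_zero _ two_ne
      simp [this]
    · have hne : ζ ^ (j - a) ≠ 1 := fun h' => h (hiff.mp h')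
      have hp : (ζ ^ (j - a)) ^ (2 ^ m) = 1 := by
        rw [← zpow_natCast, ← zpow_mul, mul_comm, zpow_mul, zpow_natCast, hζ.pow_eq_one, one_zpow]
      rw [geom_sum_eq hne, hp]
      simp
  rw [key]
  exact scalar_mem h2 hsum

theorem sum_ind (m : ℕ) : ∑ a ∈ Finset.range (2 ^ m), ind m a = 1 := by
  ext j
  have hpos : (0 : ℤ) < 2 ^ m := by positivity
  have h0 : 0 ≤ j % 2 ^ m := Int.emod_nonneg _ hpos.ne'
  have h1 : j % 2 ^ m < 2 ^ m := Int.emod_lt_of_pos _ hpos
  rw [Finset.sum_apply, Finset.sum_eq_single (j % 2 ^ m).toNat]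
  · simp only [ind, Int.toNat_of_nonneg h0, Pi.one_apply]
    rw [if_pos (Int.mod_modEq _ _).symm]
  · intro b hb hne
    simp only [ind]
    rw [if_neg]
    intro h
    apply hne
    have hb' : (b : ℤ) < 2 ^ m := by exact_mod_cast Finset.mem_range.mp hb
    have : j % 2 ^ m = b := by
      rw [h.eq, Int.emod_eq_of_lt (by positivity) hb']
    rw [this, Int.toNat_natCast]
  · intro h
    exfalso
    apply h
    rw [Finset.mem_range]
    have : ((j % 2 ^ m).toNat : ℤ) < ((2 ^ m : ℕ) : ℤ) := by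
      rw [Int.toNat_of_nonneg h0]; exact_mod_cast h1
    exact_mod_cast this

theorem per_mem {V : Submodule R (ℤ → L)} {m : ℕ} {φ : ℤ → L} (hA : ∀ j, φ j ∈ A)
    (hφ : ∀ j k, j ≡ k [ZMOD 2 ^ m] → φ j = φ k) {f : ℤ → L} (hf : f ∈ V) : φ * f ∈ V := by
  have : φ * f = ∑ a ∈ Finset.range (2 ^ m), φ a • (ind m a * f) := by
    conv_lhs => rw [← one_mul (φ * f), ← sum_ind m, Finset.sum_mul]
    refine Finset.sum_congr rfl fun a _ => ?_
    ext j
    simp only [ind, Pi.mul_apply, Pi.smul_apply, smul_eq_mul]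
    split_ifs with h
    · rw [hφ _ _ h]; ring
    · ring
  rw [this]
  exact V.sum_mem fun a _ => scalar_mem (hA _) (ind_mem _ _ hf)

end

end Pool.Agent.P.MP_90339f_al
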