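import Mathlib
import Pool.Agent.P.MP_90339f_al.Action

set_option autoImplicit false

namespace Pool.Agent.P.MP_90339f_al

noncomputable section

/-- Every part of `w` supported away from a 2-adic neighbourhood of `0` lies in `U`. -/
def Near (U : Submodule R (ℤ → L)) (w : ℤ → L) : Prop := ∀ m, (1 - ind m 0) * w ∈ U

theorem near_mem {U : Submodule R (ℤ → L)} {w : ℤ → L} (hw : Near U w) {m : ℕ} {φ : ℤ → L}
    (hA : ∀ j, φ j ∈ A) (hφ : ∀ j k, j ≡ k [ZMOD 2 ^ m] → φ j = φ k) (h0 : φ 0 = 0) :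
    φ * w ∈ U := by
  have : φ * w = φ * ((1 - ind m 0) * w) := by
    ext j
    simp only [ind, Pi.mul_apply, Pi.sub_apply, Pi.one_apply]
    split_ifs with h
    · rw [hφ _ _ h, h0]; ring
    · ring
  rw [this]
  exact per_mem hA hφ (hw m)

theorem normal_form {U : Submodule R (ℤ → L)} {w : ℤ → L} (hw : Near U w) (r : R) :
    ∃ y ∈ Submodule.span A (Set.range fun n : ℤ => sh n w), r • w - y ∈ U := by
  induction r using MonoidAlgebra.induction_on with
  | of g =>
    obtain ⟨m, hm⟩ := g.z.2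
    have hz : ((g.z : Lˣ) : L) ≠ 0 := Units.ne_zero _
    have hzA : ∀ j : ℤ, ((g.z : Lˣ) : L) ^ j ∈ A := fun j => by
      simpa using C_mem_A (g.z ^ j)
    have hm' : ((g.z : Lˣ) : L) ^ (2 ^ m) = 1 := by
      simpa using congrArg Units.val hm
    let a : A := ⟨((g.c : Lˣ) : L) * ((g.z : Lˣ) : L) ^ g.n, A.mul_mem (C_mem_A _) (hzA _)⟩
    refine ⟨a • sh g.n w, Submodule.smul_mem _ _ (Submodule.subset_span ⟨g.n, rfl⟩), ?_⟩
    have h1 : (fun j : ℤ => ((g.z : Lˣ) : L) ^ j - 1) * w ∈ U := by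
      refine near_mem hw (m := m) (fun j => A.sub_mem (hzA j) A.one_mem) (fun j k hjk => ?_)
        (by simp)
      obtain ⟨t, ht⟩ := Int.modEq_iff_dvd.mp hjk
      have : k = j + ((2 ^ m : ℕ) : ℤ) * t := by push_cast; linarith
      rw [this, zpow_add₀ hz, zpow_mul, zpow_natCast, hm', one_zpow, mul_one]
    have h2 : MonoidAlgebra.of ℤ G g • w - a • sh g.n w =
        (a : L) • sh g.n ((fun j : ℤ => ((g.z : Lˣ) : L) ^ j - 1) * w) := by
      rw [of_smul]
      ext j
      simp only [act, sh, a, Pi.sub_apply, Pi.smul_apply, Pi.mul_apply, smul_eq_mul,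
        Subalgebra.smul_def, zpow_sub₀ hz]
      field_simp
    rw [h2]
    exact scalar_mem a.2 (sh_mem _ h1)
  | add r s hr hs =>
    obtain ⟨y, hy, h1⟩ := hr
    obtain ⟨z, hz, h2⟩ := hs
    refine ⟨y + z, Submodule.add_mem _ hy hz, ?_⟩
    have : (r + s) • w - (y + z) = (r • w - y) + (s • w - z) := by rw [add_smul]; abel
    rw [this]
    exact U.add_mem h1 h2
  | smul k r hr =>
    obtain ⟨y, hy, h1⟩ := hr
    refine ⟨k • y, Submodule.smul_of_tower_mem _ k hy, ?_⟩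
    rw [zsmul_smul, ← smul_sub]
    exact U.toAddSubgroup.zsmul_mem h1 k

theorem ind_A (m : ℕ) (a j : ℤ) : ind m a j ∈ A := by
  unfold ind
  split_ifs
  · exact A.one_mem
  · exact A.zero_mem

theorem ind_per (m : ℕ) (a j k : ℤ) (h : j ≡ k [ZMOD 2 ^ m]) : ind m a j = ind m a k := by
  unfold ind
  by_cases h1 : j ≡ a [ZMOD 2 ^ m]
  · rw [if_pos h1, if_pos (h.symm.trans h1)]
  · rw [if_neg h1, if_neg fun h2 => h1 (h.trans h2)]

theorem ind_mul_sh (m : ℕ) (a n : ℤ) (f : ℤ → L) :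
    ind m a * sh n f = sh n (ind m (a - n) * f) := by
  ext j
  simp only [ind, sh, Pi.mul_apply]
  have : j ≡ a [ZMOD 2 ^ m] ↔ j - n ≡ a - n [ZMOD 2 ^ m] :=
    ⟨fun h => h.sub_right n, fun h => by simpa using h.add_right n⟩
  simp only [this]

theorem exists_sep (s : Finset ℤ) (n₀ : ℤ) :
    ∃ m : ℕ, ∀ n ∈ s, n ≡ n₀ [ZMOD 2 ^ m] → n = n₀ := by
  refine ⟨s.sup fun n => (n₀ - n).natAbs, fun n hn h => ?_⟩
  have h1 : (n₀ - n).natAbs ≤ s.sup fun n => (n₀ - n).natAbs :=
    Finset.le_sup (f := fun n => (n₀ - n).natAbs) hn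
  have h2 : (n₀ - n).natAbs < 2 ^ (s.sup fun n => (n₀ - n).natAbs) :=
    lt_of_le_of_lt h1 Nat.lt_two_pow_self
  have h3 := Int.eq_zero_of_dvd_of_natAbs_lt_natAbs (Int.modEq_iff_dvd.mp h)
    (by simpa [Int.natAbs_pow] using h2)
  linarith

theorem simple_top {U V : Submodule R (ℤ → L)} {w : ℤ → L} (hw : Near U w)
    (hV : V ≤ U ⊔ Submodule.span R {w}) (hVU : ¬ V ≤ U) : ∃ u ∈ U, w + u ∈ V := by
  classical
  obtain ⟨x, hxV, hxU⟩ := SetLike.not_le_iff_exists.mp hVU
  obtain ⟨u, hu, _, hr, hx⟩ := Submodule.mem_sup.mp (hV hxV)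
  obtain ⟨r, rfl⟩ := Submodule.mem_span_singleton.mp hr
  obtain ⟨y, hy, hry⟩ := normal_form hw r
  obtain ⟨a, rfl⟩ := Finsupp.mem_span_range_iff_exists_finsupp.mp hy
  have hxy : x - a.sum (fun n c => c • sh n w) ∈ U := by
    have : x - a.sum (fun n c => c • sh n w) = u + (r • w - a.sum (fun n c => c • sh n w)) := by
      rw [← hx]; abel
    rw [this]
    exact U.add_mem hu hry
  have ha : a ≠ 0 := by
    rintro rfl
    exact hxU (by simpa using hxy)
  obtain ⟨n₀, hn₀⟩ := Finsupp.support_nonempty_iff.mpr ha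
  obtain ⟨m, hm⟩ := exists_sep a.support n₀
  have ha0 : ((a n₀ : A) : L) ≠ 0 := by
    simpa using Finsupp.mem_support_iff.mp hn₀
  have h1 : ind m n₀ * a.sum (fun n c => c • sh n w) - (a n₀ : L) • sh n₀ (ind m 0 * w) ∈ U := by
    rw [Finsupp.sum, Finset.mul_sum, ← Finset.add_sum_erase _ _ hn₀]
    have e0 : ind m n₀ * (a n₀ • sh n₀ w) = (a n₀ : L) • sh n₀ (ind m 0 * w) := by
      rw [Subalgebra.smul_def, mul_smul_comm, ind_mul_sh, sub_self]
    rw [e0, add_sub_cancel_left]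
    refine U.sum_mem fun n hn => ?_
    rw [Subalgebra.smul_def, mul_smul_comm, ind_mul_sh]
    refine scalar_mem (a n).2 (sh_mem _ (near_mem hw (ind_A m _) (ind_per m _) ?_))
    unfold ind
    rw [if_neg]
    intro h
    exact (Finset.mem_erase.mp hn).1 (hm n (Finset.mem_erase.mp hn).2
      (by simpa using h.add_right n))
  have h2 : ind m n₀ * x - (a n₀ : L) • sh n₀ (ind m 0 * w) ∈ U := by
    have : ind m n₀ * x - (a n₀ : L) • sh n₀ (ind m 0 * w) =
        ind m n₀ * (x - a.sum (fun n c => c • sh n w)) +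
          (ind m n₀ * a.sum (fun n c => c • sh n w) - (a n₀ : L) • sh n₀ (ind m 0 * w)) := by
      ring
    rw [this]
    exact U.add_mem (ind_mem _ _ hxy) h1
  have h3 := scalar_mem (inv_mem_A (a n₀).2) (sh_mem (-n₀) h2)
  have h4 : ((a n₀ : A) : L)⁻¹ • sh (-n₀) (ind m n₀ * x) ∈ V :=
    scalar_mem (inv_mem_A (a n₀).2) (sh_mem _ (ind_mem _ _ hxV))
  refine ⟨_, U.sub_mem h3 (hw m), ?_⟩
  convert h4 using 1
  ext j
  simp only [sh, Pi.add_apply, Pi.sub_apply, Pi.smul_apply, Pi.mul_apply, Pi.one_apply,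
    smul_eq_mul, sub_neg_eq_add, add_sub_cancel_right]
  field_simp
  ring

theorem chain_sum {U : Submodule R (ℤ → L)} (hU : Chain U) {ι : Type} (s : Finset ι)
    (hs : s.Nonempty) (x : ι → ℤ → L) (hx : ∀ i, x i ∈ U) :
    ∃ i, ∑ j ∈ s, x j ∈ Submodule.span R {x i} := by
  classical
  induction hs using Finset.Nonempty.cons_induction with
  | singleton a => exact ⟨a, by simp⟩
  | cons a s ha hs ih =>
    obtain ⟨i, hi⟩ := ih
    rw [Finset.sum_cons]
    rcases hU (Submodule.span R {x a}) (Submodule.span R {x i})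
      ((Submodule.span_singleton_le_iff_mem _ _).mpr (hx a))
      ((Submodule.span_singleton_le_iff_mem _ _).mpr (hx i)) with h | h
    · exact ⟨i, Submodule.add_mem _ (h (Submodule.mem_span_singleton_self _)) hi⟩
    · exact ⟨a, Submodule.add_mem _ (Submodule.mem_span_singleton_self _) (h hi)⟩

theorem exists_gen {U : Submodule R (ℤ → L)} (hU : Chain U) {x : ℤ → L} (hx : x ∈ U) (m : ℕ)
    (b : ℤ) : ∃ y ∈ U, x ∈ Submodule.span R {ind m b * y} := by
  obtain ⟨a, ha⟩ := chain_sum hU (Finset.range (2 ^ m)) ⟨0, by simp⟩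
    (fun a => ind m a * x) (fun a => ind_mem _ _ hx)
  rw [← Finset.sum_mul, sum_ind, one_mul] at ha
  refine ⟨sh (b - a) x, sh_mem _ hx, ?_⟩
  refine (Submodule.span_singleton_le_iff_mem _ _).mpr ?_ ha
  have : ind m a * x = sh (a - b) (ind m b * sh (b - a) x) := by
    have h1 : x = sh (a - b) (sh (b - a) x) := by
      ext j
      simp only [sh]
      congr 1
      ring
    conv_lhs => rw [h1, ind_mul_sh, sub_sub_cancel]
  rw [this]
  exact sh_mem _ (Submodule.mem_span_singleton_self _)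

theorem shell_dvd {j : ℤ} {i : ℕ} (h : j ≡ 2 ^ i [ZMOD 2 ^ (i + 1)]) (m : ℕ) :
    j ≡ 0 [ZMOD 2 ^ m] ↔ m ≤ i := by
  constructor
  · intro h0
    by_contra hlt
    have h1 : j ≡ 0 [ZMOD 2 ^ (i + 1)] := h0.of_dvd (pow_dvd_pow 2 (by omega))
    have h2 : (2 : ℤ) ^ (i + 1) ∣ 2 ^ i := by
      simpa using Int.modEq_iff_dvd.mp (h1.symm.trans h)
    have := (pow_dvd_pow_iff (by norm_num : (2 : ℤ) ≠ 0) (by norm_num [Int.isUnit_iff])).mp h2
    omega
  · intro hm
    have h1 : j ≡ 2 ^ i [ZMOD 2 ^ m] := h.of_dvd (pow_dvd_pow 2 (by omega))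
    exact h1.trans (Int.modEq_zero_iff_dvd.mpr (pow_dvd_pow 2 hm))

theorem shell_unique {j : ℤ} {i k : ℕ} (hi : j ≡ 2 ^ i [ZMOD 2 ^ (i + 1)])
    (hk : j ≡ 2 ^ k [ZMOD 2 ^ (k + 1)]) : i = k :=
  le_antisymm ((shell_dvd hk i).mp ((shell_dvd hi i).mpr le_rfl))
    ((shell_dvd hi k).mp ((shell_dvd hk k).mpr le_rfl))

theorem exists_glue {U : Submodule R (ℤ → L)} (v : ℕ → ℤ → L) (hv : ∀ i, v i ∈ U) :
    ∃ w, Near U w ∧ ∀ i, ind (i + 1) (2 ^ i) * w = ind (i + 1) (2 ^ i) * v i := by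
  classical
  let w : ℤ → L := fun j =>
    if h : ∃ i : ℕ, j ≡ 2 ^ i [ZMOD 2 ^ (i + 1)] then v h.choose j else 0
  have hw : ∀ (j : ℤ) (i : ℕ), j ≡ 2 ^ i [ZMOD 2 ^ (i + 1)] → w j = v i j := by
    intro j i h
    have h' : ∃ i : ℕ, j ≡ 2 ^ i [ZMOD 2 ^ (i + 1)] := ⟨i, h⟩
    simp only [w, dif_pos h']
    rw [shell_unique h'.choose_spec h]
  refine ⟨w, fun m => ?_, fun i => ?_⟩
  · have : (1 - ind m 0) * w = ∑ i ∈ Finset.range m, ind (i + 1) (2 ^ i) * v i := by
      ext j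
      simp only [Finset.sum_apply, Pi.mul_apply, Pi.sub_apply, Pi.one_apply, ind]
      by_cases h : ∃ i : ℕ, j ≡ 2 ^ i [ZMOD 2 ^ (i + 1)]
      · obtain ⟨i, hi⟩ := h
        rw [hw j i hi]
        by_cases him : i < m
        · rw [if_neg (fun h0 => absurd ((shell_dvd hi m).mp h0) (by omega)),
            Finset.sum_eq_single i (fun k _ hk => by
              rw [if_neg (fun h => hk (shell_unique h hi)), zero_mul])
              (fun h => absurd (Finset.mem_range.mpr him) h), if_pos hi]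
          ring
        · rw [if_pos ((shell_dvd hi m).mpr (by omega)), Finset.sum_eq_zero]
          · ring
          · intro k hk
            rw [if_neg, zero_mul]
            intro h
            have := shell_unique h hi
            have := Finset.mem_range.mp hk
            omega
      · have h0 : w j = 0 := by simp only [w, dif_neg h]
        rw [h0, mul_zero, Finset.sum_eq_zero]
        intro k _
        rw [if_neg (fun hk => h ⟨k, hk⟩), zero_mul]
    rw [this]
    exact U.sum_mem fun i _ => ind_mem _ _ (hv i)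
  · ext j
    simp only [Pi.mul_apply, ind]
    split_ifs with h
    · rw [hw j i h]
    · simp

theorem exists_w {U : Submodule R (ℤ → L)} (hU : Chain U) (hc : Countable U) :
    ∃ w, Near U w ∧ w ∉ U ∧ ∀ V : Submodule R (ℤ → L), ∀ u ∈ U, w + u ∈ V → U ≤ V := by
  by_cases h0 : U = ⊥
  · subst h0
    refine ⟨fun j => if j = 0 then 1 else 0, fun m => ?_, ?_, fun V _ _ _ => bot_le⟩
    · rw [Submodule.mem_bot]
      ext j
      by_cases hj : j = 0 <;> simp [ind, hj]
    · rw [Submodule.mem_bot]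
      intro h
      simpa using congrFun h 0
  obtain ⟨e, he⟩ := exists_surjective_nat (U × U)
  choose y hyU hy using fun i : ℕ => exists_gen hU (e i).2.2 (i + 1) (2 ^ i)
  obtain ⟨w, hw, hwv⟩ := exists_glue (U := U) (fun i => y i - (e i).1)
    (fun i => U.sub_mem (hyU i) (e i).1.2)
  have key : ∀ V : Submodule R (ℤ → L), ∀ u ∈ U, w + u ∈ V → U ≤ V := by
    intro V u hu hV x hx
    obtain ⟨i, hi⟩ := he (⟨u, hu⟩, ⟨x, hx⟩)
    have h1 : ind (i + 1) (2 ^ i) * (w + u) = ind (i + 1) (2 ^ i) * y i := by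
      rw [mul_add, hwv i, hi]
      ring
    have h2 : ind (i + 1) (2 ^ i) * y i ∈ V := h1 ▸ ind_mem _ _ hV
    have h3 := hy i
    rw [hi] at h3
    exact (Submodule.span_singleton_le_iff_mem _ _).mpr h2 h3
  refine ⟨w, hw, fun hwU => h0 ?_, key⟩
  exact le_bot_iff.mp (key ⊥ (-w) (U.neg_mem hwU) (by simp))

theorem extend (U : Submodule R (ℤ → L)) (hU : Chain U) (hc : Countable U) :
    ∃ W, U < W ∧ ∀ V ≤ W, V ≤ U ∨ V = W := by
  obtain ⟨w, hw, hwU, key⟩ := exists_w hU hc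
  refine ⟨U ⊔ Submodule.span R {w}, lt_of_le_of_ne le_sup_left fun h => hwU ?_, fun V hV => ?_⟩
  · rw [h]
    exact Submodule.mem_sup_right (Submodule.mem_span_singleton_self w)
  · by_cases hVU : V ≤ U
    · exact Or.inl hVU
    · obtain ⟨u, hu, hwu⟩ := simple_top hw hV hVU
      have hUV := key V u hu hwu
      refine Or.inr (le_antisymm hV (sup_le hUV ?_))
      rw [Submodule.span_singleton_le_iff_mem]
      simpa using V.sub_mem hwu (hUV hu)

theorem exists_uncountable_good : ∃ U : Submodule R (ℤ → L), Good U ∧ ¬ Countable U :=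
  exists_uncountable extend

theorem locally_cyclic (t : Finset Cg) : ∃ D : Subgroup Cg, IsCyclic D ∧ ∀ x ∈ t, x ∈ D := by
  choose m hm using fun c : Cg => c.2
  let M := t.sup m
  refine ⟨(rootsOfUnity (2 ^ M) L).comap Cg.subtype, ?_, fun x hx => ?_⟩
  · refine isCyclic_of_injective (G' := rootsOfUnity (2 ^ M) L)
      (Cg.subtype.subgroupComap _) fun a b h => ?_
    ext
    exact congrArg (fun t : rootsOfUnity (2 ^ M) L => ((t : Lˣ) : L)) h
  · have hle : m x ≤ M := Finset.le_sup hx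
    obtain ⟨k, hk⟩ := Nat.exists_eq_add_of_le hle
    rw [Subgroup.mem_comap, mem_rootsOfUnity, hk, pow_add, pow_mul]
    simp [hm x]

end

end Pool.Agent.P.MP_90339f_al
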